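import Mathlib

/-!
# The {3,5}-part of `2 ^ m + 2 ^ n + 1` (MP_ef3e41_nt): definitions
-/

set_option autoImplicit false

namespace Pool.Agent.TFP

open Finset

/-- `G A B C x y = ∑_{i ≤ C} binom(A+B+C+1, C-i) binom(A+i, i) x^(C-i) y^i`
(the coefficient of `T ^ C` in `(1 + x T) ^ (A+B+C+1) / (1 - y T) ^ (A+1)`) -/
def G (A B C x y : ℕ) : ℕ :=
  ∑ i ∈ range (C + 1), (A + B + C + 1).choose (C - i) * (A + i).choose i * x ^ (C - i) * y ^ i

/-- the value at `e` of the polynomial `binom(A + C - e, A)` of degree `A` -/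
def gg (A C e : ℕ) : ℤ :=
  if e ≤ C then ((A + C - e).choose A : ℤ) else (-1) ^ A * ((e - C - 1).choose A : ℤ)

end Pool.Agent.TFP
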