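import Mathlib
import Pool.Agent.Lib_helper99.TFP.Defs

set_option autoImplicit false

namespace Pool.Agent.TFP

open Finset

/-- Pascal step. -/
theorem d1_pascal (x y : ℤ) (D : ℕ) (g : ℕ → ℤ) :
    ∑ e ∈ range (D + 1 + 1), ((D + 1).choose e : ℤ) * g e * x ^ e * y ^ (D + 1 - e) =
      (x + y) * ∑ e ∈ range (D + 1), (D.choose e : ℤ) * g e * x ^ e * y ^ (D - e) +
      x * ∑ e ∈ range (D + 1), (D.choose e : ℤ) * (g (e + 1) - g e) * x ^ e * y ^ (D - e) := by
  have h1 : y * ∑ e ∈ range (D + 1), (D.choose e : ℤ) * g e * x ^ e * y ^ (D - e) =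
      ∑ e ∈ range (D + 1), (D.choose (e + 1) : ℤ) * g (e + 1) * x ^ (e + 1) * y ^ (D - e) +
        g 0 * y ^ (D + 1) := by
    rw [sum_range_succ', sum_range_succ (n := D)]
    simp only [Nat.choose_succ_self, Nat.cast_zero, zero_mul, add_zero, Nat.choose_zero_right,
      Nat.cast_one, one_mul, pow_zero, mul_one, Nat.sub_zero, mul_add, mul_sum]
    congr 1
    · refine sum_congr rfl fun e he => ?_
      have : e < D := mem_range.mp he
      have h2 : D - e = D - (e + 1) + 1 := by omega
      rw [h2, pow_succ]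
      ring
    · rw [pow_succ]
      ring
  have h3 : ∑ e ∈ range (D + 1 + 1), ((D + 1).choose e : ℤ) * g e * x ^ e * y ^ (D + 1 - e) =
      ∑ e ∈ range (D + 1), ((D + 1).choose (e + 1) : ℤ) * g (e + 1) * x ^ (e + 1) * y ^ (D - e) +
        g 0 * y ^ (D + 1) := by
    rw [sum_range_succ']
    simp
  have h4 : ∑ e ∈ range (D + 1), ((D + 1).choose (e + 1) : ℤ) * g (e + 1) * x ^ (e + 1) *
        y ^ (D - e) =
      x * ∑ e ∈ range (D + 1), (D.choose e : ℤ) * g (e + 1) * x ^ e * y ^ (D - e) +
      ∑ e ∈ range (D + 1), (D.choose (e + 1) : ℤ) * g (e + 1) * x ^ (e + 1) * y ^ (D - e) := by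
    rw [mul_sum, ← sum_add_distrib]
    refine sum_congr rfl fun e _ => ?_
    rw [Nat.choose_succ_succ]
    push_cast
    ring
  have h5 : ∑ e ∈ range (D + 1), (D.choose e : ℤ) * (g (e + 1) - g e) * x ^ e * y ^ (D - e) =
      ∑ e ∈ range (D + 1), (D.choose e : ℤ) * g (e + 1) * x ^ e * y ^ (D - e) -
      ∑ e ∈ range (D + 1), (D.choose e : ℤ) * g e * x ^ e * y ^ (D - e) := by
    rw [← sum_sub_distrib]
    refine sum_congr rfl fun e _ => ?_
    ring
  rw [h3, h4, h5, add_mul, h1]
  ring

theorem d1_gg_zero (C e : ℕ) : gg 0 C e = 1 := by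
  unfold gg
  split_ifs <;> simp

theorem d1_gg_succ (A C e : ℕ) : gg (A + 1) C (e + 1) - gg (A + 1) C e = - gg A C e := by
  unfold gg
  rcases lt_trichotomy e C with h | h | h
  · rw [if_pos (by omega), if_pos (by omega), if_pos (by omega)]
    have h1 : A + 1 + C - (e + 1) = A + C - e := by omega
    have h2 : A + 1 + C - e = (A + C - e) + 1 := by omega
    rw [h1, h2, Nat.choose_succ_succ]
    push_cast
    ring
  · subst h
    rw [if_neg (by omega), if_pos le_rfl, if_pos le_rfl]
    have h1 : e + 1 - e - 1 = 0 := by omega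
    have h2 : A + 1 + e - e = A + 1 := by omega
    have h3 : A + e - e = A := by omega
    rw [h1, h2, h3]
    simp
  · rw [if_neg (by omega), if_neg (by omega), if_neg (by omega)]
    have h1 : e + 1 - C - 1 = (e - C - 1) + 1 := by omega
    rw [h1, Nat.choose_succ_succ]
    push_cast
    ring

theorem dvd_T (x y : ℤ) (D A C : ℕ) : (x + y) ^ (D - A) ∣
    ∑ e ∈ range (D + 1), (D.choose e : ℤ) * gg A C e * x ^ e * y ^ (D - e) := by
  induction D generalizing A with
  | zero => simp
  | succ D ih =>
    by_cases hA : D + 1 ≤ A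
    · have : D + 1 - A = 0 := by omega
      rw [this, pow_zero]
      exact one_dvd _
    · rw [d1_pascal]
      refine dvd_add ?_ ?_
      · have h1 : D + 1 - A = (D - A) + 1 := by omega
        rw [h1, pow_succ']
        exact mul_dvd_mul_left _ (ih A)
      · refine Dvd.dvd.mul_left ?_ _
        cases A with
        | zero =>
          simp [d1_gg_zero]
        | succ A =>
          have h2 : D + 1 - (A + 1) = D - A := by omega
          rw [h2]
          have h3 : ∑ e ∈ range (D + 1), (D.choose e : ℤ) *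
              (gg (A + 1) C (e + 1) - gg (A + 1) C e) * x ^ e * y ^ (D - e) =
              - ∑ e ∈ range (D + 1), (D.choose e : ℤ) * gg A C e * x ^ e * y ^ (D - e) := by
            rw [← sum_neg_distrib]
            refine sum_congr rfl fun e _ => ?_
            rw [d1_gg_succ]
            ring
          rw [h3, dvd_neg]
          exact ih A

end Pool.Agent.TFP
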