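import Mathlib
import Pool.Agent.Lib_helper99.TFP.Defs
import Pool.Agent.Lib_helper99.TFP.D1

set_option autoImplicit false

namespace Pool.Agent.TFP

open Finset

theorem G_pos (A B C x y : ℕ) (hx : 0 < x) : 0 < G A B C x y := by
  unfold G
  refine lt_of_lt_of_le ?_ (Finset.single_le_sum (f := fun i =>
    (A + B + C + 1).choose (C - i) * (A + i).choose i * x ^ (C - i) * y ^ i)
    (fun i _ => Nat.zero_le _) (Finset.mem_range.2 (Nat.succ_pos C)))
  have h1 : 0 < (A + B + C + 1).choose C := Nat.choose_pos (by omega)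
  have h2 : 0 < x ^ C := Nat.pow_pos hx
  simp only [Nat.sub_zero, Nat.add_zero, Nat.choose_zero_right, pow_zero, mul_one]
  exact Nat.mul_pos h1 h2

theorem d2_first (A B C x y : ℕ) :
    ∑ e ∈ range (C + 1), ((A + B + C + 1).choose e : ℤ) * gg A C e * (x : ℤ) ^ e *
      (y : ℤ) ^ (A + B + C + 1 - e) = (y : ℤ) ^ (A + B + 1) * (G A B C x y : ℤ) := by
  rw [← Finset.sum_range_reflect]
  unfold G
  push_cast
  rw [Finset.mul_sum]
  refine Finset.sum_congr rfl fun i hi => ?_
  have hi' : i ≤ C := Nat.lt_succ_iff.1 (Finset.mem_range.1 hi)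
  have e2 : A + B + C + 1 - (C - i) = A + B + 1 + i := by omega
  have e3 : A + C - (C - i) = A + i := by omega
  have e4 : (A + i).choose A = (A + i).choose i := Nat.choose_symm_add
  have e5 : gg A C (C - i) = ((A + i).choose i : ℤ) := by
    unfold gg
    rw [if_pos (Nat.sub_le C i), e3, e4]
  rw [e2, e5, pow_add]
  ring

theorem d2_middle (A B C x y : ℕ) :
    ∑ e ∈ range A, ((A + B + C + 1).choose (C + 1 + e) : ℤ) * gg A C (C + 1 + e) *
      (x : ℤ) ^ (C + 1 + e) * (y : ℤ) ^ (A + B + C + 1 - (C + 1 + e)) = 0 := by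
  refine Finset.sum_eq_zero fun e he => ?_
  have he' : e < A := Finset.mem_range.1 he
  have e1 : C + 1 + e - C - 1 = e := by omega
  have e5 : gg A C (C + 1 + e) = 0 := by
    unfold gg
    rw [if_neg (by omega), e1, Nat.choose_eq_zero_of_lt he']
    simp
  rw [e5]
  simp

theorem d2_last (A B C x y : ℕ) :
    ∑ e ∈ range (B + 1), ((A + B + C + 1).choose (C + 1 + A + e) : ℤ) *
      gg A C (C + 1 + A + e) * (x : ℤ) ^ (C + 1 + A + e) *
      (y : ℤ) ^ (A + B + C + 1 - (C + 1 + A + e)) =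
      (-1) ^ A * (x : ℤ) ^ (A + C + 1) * (G A C B y x : ℤ) := by
  unfold G
  push_cast
  rw [Finset.mul_sum]
  refine Finset.sum_congr rfl fun i hi => ?_
  have hi' : i ≤ B := Nat.lt_succ_iff.1 (Finset.mem_range.1 hi)
  have e1 : A + B + C + 1 - (C + 1 + A + i) = B - i := by omega
  have e2 : C + 1 + A + i - C - 1 = A + i := by omega
  have e4 : (A + i).choose A = (A + i).choose i := Nat.choose_symm_add
  have e5 : gg A C (C + 1 + A + i) = (-1) ^ A * ((A + i).choose i : ℤ) := by
    unfold gg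
    rw [if_neg (by omega), e2, e4]
  have e6 : (A + B + C + 1).choose (C + 1 + A + i) = (A + C + B + 1).choose (B - i) := by
    have h := Nat.choose_symm_of_eq_add (n := A + B + C + 1) (a := C + 1 + A + i) (b := B - i)
      (by omega)
    rw [h]
    congr 1
    omega
  have e7 : C + 1 + A + i = A + C + 1 + i := by omega
  rw [e1, e5, e6, e7, pow_add]
  ring

theorem G_dvd (A B C x y : ℕ) : ((x : ℤ) + y) ^ (B + C + 1) ∣
    (y : ℤ) ^ (A + B + 1) * (G A B C x y : ℤ) +
      (-1) ^ A * (x : ℤ) ^ (A + C + 1) * (G A C B y x : ℤ) := by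
  have h := dvd_T (x : ℤ) (y : ℤ) (A + B + C + 1) A C
  have e1 : A + B + C + 1 - A = B + C + 1 := by omega
  have e2 : A + B + C + 1 + 1 = (C + 1) + A + (B + 1) := by omega
  rw [e1, e2, Finset.sum_range_add, Finset.sum_range_add, d2_first, d2_middle, d2_last,
    add_zero] at h
  exact h

end Pool.Agent.TFP
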