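import Mathlib
import Pool.Agent.Lib_helper99.TFP.Defs
import Pool.Agent.Lib_helper99.TFP.D2

/-! TFP, block E3. -/

set_option autoImplicit false

namespace Pool.Agent.TFP

open Finset

theorem e3_dvd (A B C : ℕ) (hA : Odd A) : ((9 : ℤ) ^ (B + C + 1)) ∣
    (G A B C 8 1 : ℤ) - 8 ^ (A + C + 1) * (G A C B 1 8 : ℤ) := by
  have h := G_dvd A B C 8 1
  rw [hA.neg_one_pow] at h
  have e1 : ((8 : ℕ) : ℤ) + ((1 : ℕ) : ℤ) = 9 := by norm_num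
  rw [e1] at h
  have e2 : ((1 : ℕ) : ℤ) ^ (A + B + 1) * (G A B C 8 1 : ℤ) +
      -1 * ((8 : ℕ) : ℤ) ^ (A + C + 1) * (G A C B 1 8 : ℤ) =
      (G A B C 8 1 : ℤ) - 8 ^ (A + C + 1) * (G A C B 1 8 : ℤ) := by
    push_cast
    ring
  rw [e2] at h
  exact h

theorem e3_pow (A C m : ℕ) (hm : 3 * (A + C + 1) ≤ m) :
    (2 : ℤ) ^ m = 2 ^ (m - 3 * (A + C + 1)) * 8 ^ (A + C + 1) := by
  have e : (8 : ℤ) = 2 ^ 3 := by norm_num
  rw [e, ← pow_mul, ← pow_add]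
  congr 1
  omega

theorem e3_low (A B C m n : ℕ) (hA : Odd A) (hm : 3 * (A + C + 1) ≤ m)
    (h : 9 ^ (B + C + 1) ∣ 2 ^ m + 2 ^ n + 1) :
    9 ^ (B + C + 1) ≤ 2 ^ (m - 3 * (A + C + 1)) * G A B C 8 1 + (2 ^ n + 1) * G A C B 1 8 := by
  apply Nat.le_of_dvd
  · have := G_pos A B C 8 1 (by norm_num)
    positivity
  · have h1 := e3_dvd A B C hA
    have h2 := e3_pow A C m hm
    have h3 : ((9 : ℤ) ^ (B + C + 1)) ∣ 2 ^ m + 2 ^ n + 1 := by exact_mod_cast h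
    have e : ((2 : ℤ) ^ (m - 3 * (A + C + 1)) * (G A B C 8 1 : ℤ) +
        (2 ^ n + 1) * (G A C B 1 8 : ℤ)) = (2 ^ m + 2 ^ n + 1) * (G A C B 1 8 : ℤ) +
        2 ^ (m - 3 * (A + C + 1)) *
          ((G A B C 8 1 : ℤ) - 8 ^ (A + C + 1) * (G A C B 1 8 : ℤ)) := by
      rw [h2]
      ring
    have h4 : ((9 : ℤ) ^ (B + C + 1)) ∣ ((2 : ℤ) ^ (m - 3 * (A + C + 1)) * (G A B C 8 1 : ℤ) +
        (2 ^ n + 1) * (G A C B 1 8 : ℤ)) := by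
      rw [e]
      exact dvd_add (h3.mul_right _) (h1.mul_left _)
    exact_mod_cast h4

theorem e3_high (A B C m n : ℕ) (hA : Odd A) (hnm : n ≤ m) (hn : 3 * (A + C + 1) ≤ n)
    (h : 9 ^ (B + C + 1) ∣ 2 ^ m + 2 ^ n + 1) :
    9 ^ (B + C + 1) ≤ 2 ^ (m - 3 * (A + C + 1) + 1) * G A B C 8 1 + G A C B 1 8 := by
  have hle : 9 ^ (B + C + 1) ≤ (2 ^ (m - 3 * (A + C + 1)) + 2 ^ (n - 3 * (A + C + 1))) *
      G A B C 8 1 + G A C B 1 8 := by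
    apply Nat.le_of_dvd
    · have := G_pos A B C 8 1 (by norm_num)
      positivity
    · have h1 := e3_dvd A B C hA
      have h2 := e3_pow A C m (by omega)
      have h2' := e3_pow A C n hn
      have h3 : ((9 : ℤ) ^ (B + C + 1)) ∣ 2 ^ m + 2 ^ n + 1 := by exact_mod_cast h
      have e : (((2 : ℤ) ^ (m - 3 * (A + C + 1)) + 2 ^ (n - 3 * (A + C + 1))) *
          (G A B C 8 1 : ℤ) + (G A C B 1 8 : ℤ)) = (2 ^ m + 2 ^ n + 1) * (G A C B 1 8 : ℤ) +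
          (2 ^ (m - 3 * (A + C + 1)) + 2 ^ (n - 3 * (A + C + 1))) *
            ((G A B C 8 1 : ℤ) - 8 ^ (A + C + 1) * (G A C B 1 8 : ℤ)) := by
        rw [h2, h2']
        ring
      have h4 : ((9 : ℤ) ^ (B + C + 1)) ∣ (((2 : ℤ) ^ (m - 3 * (A + C + 1)) +
          2 ^ (n - 3 * (A + C + 1))) * (G A B C 8 1 : ℤ) + (G A C B 1 8 : ℤ)) := by
        rw [e]
        exact dvd_add (h3.mul_right _) (h1.mul_left _)
      exact_mod_cast h4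
  refine hle.trans ?_
  have h5 : 2 ^ (n - 3 * (A + C + 1)) ≤ 2 ^ (m - 3 * (A + C + 1)) :=
    Nat.pow_le_pow_right (by norm_num) (by omega)
  have h6 : 2 ^ (m - 3 * (A + C + 1)) + 2 ^ (n - 3 * (A + C + 1)) ≤
      2 ^ (m - 3 * (A + C + 1) + 1) := by
    rw [pow_succ]
    omega
  exact Nat.add_le_add_right (Nat.mul_le_mul_right _ h6) _

end Pool.Agent.TFP
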