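import Mathlib
import Pool.Agent.Lib_helper99.TFP.Defs
import Pool.Agent.Lib_helper99.TFP.D2

set_option autoImplicit false

namespace Pool.Agent.TFP

open Finset

theorem e5_aux (A B C : ℕ) (hA : Even A) : ∃ g : ℕ, 0 < g ∧
    3 ^ (A + B + 1) * G A B C 125 3 + 125 ^ (A + C + 1) * G A C B 3 125 =
      2 ^ (7 * (B + C + 1)) * g := by
  have h := G_dvd A B C 125 3
  rw [hA.neg_one_pow, one_mul] at h
  have h2 : (2 : ℕ) ^ (7 * (B + C + 1)) ∣
      3 ^ (A + B + 1) * G A B C 125 3 + 125 ^ (A + C + 1) * G A C B 3 125 := by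
    have e : (((125 : ℕ) : ℤ) + ((3 : ℕ) : ℤ)) ^ (B + C + 1) =
        (((2 : ℕ) ^ (7 * (B + C + 1)) : ℕ) : ℤ) := by
      rw [pow_mul]
      push_cast
      norm_num
    rw [e] at h
    have e2 : (((3 : ℕ) : ℤ) ^ (A + B + 1) * (G A B C 125 3 : ℤ) +
        ((125 : ℕ) : ℤ) ^ (A + C + 1) * (G A C B 3 125 : ℤ)) =
        ((3 ^ (A + B + 1) * G A B C 125 3 + 125 ^ (A + C + 1) * G A C B 3 125 : ℕ) : ℤ) := by
      push_cast
      ring
    rw [e2] at h
    exact_mod_cast h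
  obtain ⟨g, hg⟩ := h2
  refine ⟨g, ?_, hg⟩
  rcases Nat.eq_zero_or_pos g with h0 | h0
  · rw [h0, mul_zero] at hg
    have hp : 0 < 3 ^ (A + B + 1) * G A B C 125 3 :=
      Nat.mul_pos (by positivity) (G_pos A B C 125 3 (by norm_num))
    omega
  · exact h0

theorem e5_low (A B C m n : ℕ) (hA : Even A) (hm : 7 * (B + C + 1) ≤ m)
    (h : 125 ^ (A + C + 1) ∣ 2 ^ m + 2 ^ n + 1) :
    2 ^ (7 * (B + C + 1)) * 125 ^ (A + C + 1) ≤
      (2 ^ m + 2 ^ n + 1) * (3 ^ (A + B + 1) * G A B C 125 3) +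
        (2 ^ n + 1) * (125 ^ (A + C + 1) * G A C B 3 125) := by
  obtain ⟨g, hg, he⟩ := e5_aux A B C hA
  have e1 : (2 : ℕ) ^ m = 2 ^ (m - 7 * (B + C + 1)) * 2 ^ (7 * (B + C + 1)) := by
    rw [← pow_add]; congr 1; omega
  generalize ha : 3 ^ (A + B + 1) * G A B C 125 3 = a at *
  generalize hb : G A C B 3 125 = b at *
  generalize hM : (2 : ℕ) ^ (7 * (B + C + 1)) = M at *
  generalize hS : (2 : ℕ) ^ (m - 7 * (B + C + 1)) = S at *
  generalize hQ : (125 : ℕ) ^ (A + C + 1) = Q at *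
  have e2 : (2 ^ m + 2 ^ n + 1) * g = Q * (S * b) + (S * a + (2 ^ n + 1) * g) := by
    rw [e1]
    calc (S * M + 2 ^ n + 1) * g = S * (M * g) + (2 ^ n + 1) * g := by ring
      _ = S * (a + Q * b) + (2 ^ n + 1) * g := by rw [he]
      _ = Q * (S * b) + (S * a + (2 ^ n + 1) * g) := by ring
  have h3 : Q ∣ S * a + (2 ^ n + 1) * g := by
    have h4 : Q ∣ Q * (S * b) + (S * a + (2 ^ n + 1) * g) := by
      rw [← e2]; exact Dvd.dvd.mul_right h g
    exact (Nat.dvd_add_right (Dvd.intro _ rfl)).mp h4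
  have h5 : Q ≤ S * a + (2 ^ n + 1) * g := Nat.le_of_dvd (by positivity) h3
  calc M * Q ≤ M * (S * a + (2 ^ n + 1) * g) := Nat.mul_le_mul_left _ h5
    _ = S * M * a + (2 ^ n + 1) * (M * g) := by ring
    _ = S * M * a + (2 ^ n + 1) * (a + Q * b) := by rw [he]
    _ = (S * M + 2 ^ n + 1) * a + (2 ^ n + 1) * (Q * b) := by ring
    _ = (2 ^ m + 2 ^ n + 1) * a + (2 ^ n + 1) * (Q * b) := by rw [e1]

theorem e5_high (A B C m n : ℕ) (hA : Even A) (hnm : n ≤ m) (hn : 7 * (B + C + 1) ≤ n)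
    (h : 125 ^ (A + C + 1) ∣ 2 ^ m + 2 ^ n + 1) :
    2 ^ (7 * (B + C + 1)) * 125 ^ (A + C + 1) ≤
      (2 ^ m + 2 ^ n + 1) * (3 ^ (A + B + 1) * G A B C 125 3) +
        125 ^ (A + C + 1) * G A C B 3 125 := by
  obtain ⟨g, hg, he⟩ := e5_aux A B C hA
  have e1 : (2 : ℕ) ^ m = 2 ^ (m - 7 * (B + C + 1)) * 2 ^ (7 * (B + C + 1)) := by
    rw [← pow_add]; congr 1; omega
  have e1' : (2 : ℕ) ^ n = 2 ^ (n - 7 * (B + C + 1)) * 2 ^ (7 * (B + C + 1)) := by
    rw [← pow_add]; congr 1; omega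
  generalize ha : 3 ^ (A + B + 1) * G A B C 125 3 = a at *
  generalize hb : G A C B 3 125 = b at *
  generalize hM : (2 : ℕ) ^ (7 * (B + C + 1)) = M at *
  generalize hS : (2 : ℕ) ^ (m - 7 * (B + C + 1)) = S at *
  generalize hS' : (2 : ℕ) ^ (n - 7 * (B + C + 1)) = S' at *
  generalize hQ : (125 : ℕ) ^ (A + C + 1) = Q at *
  have e2 : (2 ^ m + 2 ^ n + 1) * g = Q * ((S + S') * b) + ((S + S') * a + g) := by
    rw [e1, e1']
    calc (S * M + S' * M + 1) * g = (S + S') * (M * g) + g := by ring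
      _ = (S + S') * (a + Q * b) + g := by rw [he]
      _ = Q * ((S + S') * b) + ((S + S') * a + g) := by ring
  have h3 : Q ∣ (S + S') * a + g := by
    have h4 : Q ∣ Q * ((S + S') * b) + ((S + S') * a + g) := by
      rw [← e2]; exact Dvd.dvd.mul_right h g
    exact (Nat.dvd_add_right (Dvd.intro _ rfl)).mp h4
  have h5 : Q ≤ (S + S') * a + g := Nat.le_of_dvd (by positivity) h3
  calc M * Q ≤ M * ((S + S') * a + g) := Nat.mul_le_mul_left _ h5
    _ = (S * M + S' * M) * a + M * g := by ring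
    _ = (S * M + S' * M) * a + (a + Q * b) := by rw [he]
    _ = (S * M + S' * M + 1) * a + Q * b := by ring
    _ = (2 ^ m + 2 ^ n + 1) * a + Q * b := by rw [e1, e1']

end Pool.Agent.TFP
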