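import Mathlib
import Pool.Agent.Lib_helper99.TFP.Defs

/-! TFP, block U: the size of `G`. -/

set_option autoImplicit false

namespace Pool.Agent.TFP

open Finset

theorem u_geom (A C : ℕ) (s : ℝ) (hs0 : 0 ≤ s) (hs1 : s < 1) :
    (∑ i ∈ range (C + 1), ((A + i).choose i : ℝ) * s ^ i) * (1 - s) ^ (A + 1) ≤ 1 := by
  have hn : ‖s‖ < 1 := by
    rw [Real.norm_eq_abs, abs_of_nonneg hs0]
    exact hs1
  have h1 := tsum_choose_mul_geometric_of_norm_lt_one A hn
  have h2 := summable_choose_mul_geometric_of_norm_lt_one A hn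
  have h3 : ∑ i ∈ range (C + 1), ((A + i).choose i : ℝ) * s ^ i ≤ 1 / (1 - s) ^ (A + 1) := by
    rw [← h1]
    refine le_trans (le_of_eq ?_) (h2.sum_le_tsum (range (C + 1)) (fun i _ => by positivity))
    refine Finset.sum_congr rfl fun i _ => ?_
    rw [← Nat.choose_symm_add, add_comm A i]
  have h4 : 0 < (1 - s) ^ (A + 1) := by
    apply pow_pos
    linarith
  calc (∑ i ∈ range (C + 1), ((A + i).choose i : ℝ) * s ^ i) * (1 - s) ^ (A + 1)
      ≤ 1 / (1 - s) ^ (A + 1) * (1 - s) ^ (A + 1) := mul_le_mul_of_nonneg_right h3 h4.le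
    _ = 1 := by field_simp

theorem u_real (A B C x y : ℕ) (t : ℝ) (ht : 0 ≤ t) (hs : y * t < 1) :
    (G A B C x y : ℝ) * t ^ C * (1 - y * t) ^ (A + 1) ≤ (1 + x * t) ^ (A + B + C + 1) := by
  have h1 : (G A B C x y : ℝ) * t ^ C = ∑ i ∈ range (C + 1),
      (((A + B + C + 1).choose (C - i) : ℝ) * (x * t) ^ (C - i)) *
        (((A + i).choose i : ℝ) * (y * t) ^ i) := by
    unfold G
    push_cast
    rw [Finset.sum_mul]
    refine Finset.sum_congr rfl fun i hi => ?_
    rw [Finset.mem_range] at hi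
    have h2 : t ^ C = t ^ (C - i) * t ^ i := by
      rw [← pow_add]
      congr 1
      omega
    rw [h2, mul_pow, mul_pow]
    ring
  have h3 : ∑ j ∈ range (A + B + C + 1 + 1), ((A + B + C + 1).choose j : ℝ) * (x * t) ^ j =
      (1 + x * t) ^ (A + B + C + 1) := by
    rw [add_comm (1 : ℝ), add_pow]
    refine Finset.sum_congr rfl fun j _ => ?_
    rw [one_pow, mul_one, mul_comm]
  have h4 : (G A B C x y : ℝ) * t ^ C ≤ (1 + x * t) ^ (A + B + C + 1) *
      ∑ i ∈ range (C + 1), ((A + i).choose i : ℝ) * (y * t) ^ i := by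
    rw [h1, Finset.mul_sum]
    refine Finset.sum_le_sum fun i hi => ?_
    refine mul_le_mul_of_nonneg_right ?_ (by positivity)
    rw [← h3]
    have h5 : C - i ∈ range (A + B + C + 1 + 1) := by
      rw [Finset.mem_range]
      omega
    exact Finset.single_le_sum (f := fun j => ((A + B + C + 1).choose j : ℝ) * (x * t) ^ j)
      (fun j _ => by positivity) h5
  have h6 := u_geom A C (y * t) (by positivity) hs
  have h7 : 0 ≤ (1 - (y : ℝ) * t) ^ (A + 1) := by
    apply pow_nonneg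
    linarith
  calc (G A B C x y : ℝ) * t ^ C * (1 - y * t) ^ (A + 1)
      ≤ ((1 + x * t) ^ (A + B + C + 1) *
        ∑ i ∈ range (C + 1), ((A + i).choose i : ℝ) * (y * t) ^ i) * (1 - y * t) ^ (A + 1) :=
        mul_le_mul_of_nonneg_right h4 h7
    _ = (1 + x * t) ^ (A + B + C + 1) *
        ((∑ i ∈ range (C + 1), ((A + i).choose i : ℝ) * (y * t) ^ i) * (1 - y * t) ^ (A + 1)) := by
        ring
    _ ≤ (1 + x * t) ^ (A + B + C + 1) * 1 := mul_le_mul_of_nonneg_left h6 (by positivity)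
    _ = (1 + x * t) ^ (A + B + C + 1) := mul_one _

theorem G_bound (A B C x y r q : ℕ) (hr : 0 < r) (h : y * r < q) :
    G A B C x y * (r ^ C * (q - y * r) ^ (A + 1) * q ^ B) ≤ (q + x * r) ^ (A + B + C + 1) := by
  have hq : 0 < q := by omega
  have hq' : (0 : ℝ) < q := by exact_mod_cast hq
  have hyr : (y : ℝ) * r < q := by exact_mod_cast h
  have h1 := u_real A B C x y ((r : ℝ) / q) (by positivity) (by
    rw [← mul_div_assoc, div_lt_one hq']
    exact hyr)
  have h2 : ((G A B C x y * (r ^ C * (q - y * r) ^ (A + 1) * q ^ B) : ℕ) : ℝ) =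
      (G A B C x y : ℝ) * ((r : ℝ) / q) ^ C * (1 - y * ((r : ℝ) / q)) ^ (A + 1) *
        (q : ℝ) ^ (A + B + C + 1) := by
    rw [Nat.cast_mul, Nat.cast_mul, Nat.cast_mul, Nat.cast_pow, Nat.cast_pow, Nat.cast_pow,
      Nat.cast_sub h.le, Nat.cast_mul]
    have e1 : (r : ℝ) ^ C = ((r : ℝ) / q) ^ C * (q : ℝ) ^ C := by
      rw [← mul_pow]
      congr 1
      field_simp
    have e2 : ((q : ℝ) - y * r) ^ (A + 1) = (1 - y * ((r : ℝ) / q)) ^ (A + 1) *
        (q : ℝ) ^ (A + 1) := by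
      rw [← mul_pow]
      congr 1
      field_simp
    have e3 : (q : ℝ) ^ (A + B + C + 1) = (q : ℝ) ^ C * (q : ℝ) ^ (A + 1) * (q : ℝ) ^ B := by
      rw [← pow_add, ← pow_add]
      congr 1
      omega
    rw [e1, e2, e3]
    ring
  have h3 : (((q + x * r) ^ (A + B + C + 1) : ℕ) : ℝ) =
      (1 + x * ((r : ℝ) / q)) ^ (A + B + C + 1) * (q : ℝ) ^ (A + B + C + 1) := by
    push_cast
    rw [← mul_pow]
    congr 1
    field_simp
  have h4 : ((G A B C x y * (r ^ C * (q - y * r) ^ (A + 1) * q ^ B) : ℕ) : ℝ) ≤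
      (((q + x * r) ^ (A + B + C + 1) : ℕ) : ℝ) := by
    rw [h2, h3]
    exact mul_le_mul_of_nonneg_right h1 (by positivity)
  exact_mod_cast h4

end Pool.Agent.TFP
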