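import Mathlib
import Pool.Agent.Lib_helper99.TFP.Defs
import Pool.Agent.Lib_helper99.TFP.U

set_option autoImplicit false

namespace Pool.Agent.TFP

open Finset

theorem n3_key {g W S Z R t N p h : ℕ} (h1 : g * (W * S) ≤ Z * R) (h2 : t * Z ≤ N * W)
    (h3 : p * R < h * S * t) (hZ : 0 < Z) (ht : 0 < t) : p * g < N * h := by
  by_contra hcon
  rw [not_lt] at hcon
  have hNW : 0 < N * W := lt_of_lt_of_le (Nat.mul_pos ht hZ) h2
  have e1 : N * h * (W * S * t) ≤ p * g * (W * S * t) := Nat.mul_le_mul_right _ hcon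
  have e2 : p * g * (W * S * t) = p * t * (g * (W * S)) := by ring
  have e3 : p * t * (g * (W * S)) ≤ p * t * (Z * R) := Nat.mul_le_mul_left _ h1
  have e4 : p * t * (Z * R) = p * R * (t * Z) := by ring
  have e5 : p * R * (t * Z) ≤ p * R * (N * W) := Nat.mul_le_mul_left _ h2
  have e6 : p * R * (N * W) < h * S * t * (N * W) := Nat.mul_lt_mul_of_pos_right h3 hNW
  have e7 : h * S * t * (N * W) = N * h * (W * S * t) := by ring
  omega

/-- the number of factors -/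
theorem n3_pow {x y k : ℕ} (h : x ≤ y) : x ^ k ≤ y ^ k := Nat.pow_le_pow_left h k

theorem n3 (a b c K K1 r q r' q' k m e : ℕ) (hr : 0 < r) (hq : 2 * r ≤ q) (hr' : 0 < r')
    (hq' : 13 * r' ≤ q') (hK : K1 + 2 ≤ K) (hk : K + 16 ≤ k) (hm : m < K * (k + 1) + 16)
    (he : e ≤ K1 * (k + 1) + 16) (hμ : 3 * (a * k + 1 + c * k + 1) ≤ m)
    (hA : 2 * 2 ^ K * (q + 8 * r) ^ (a + b + c) ≤
      9 ^ (b + c) * 8 ^ (a + c) * (r ^ c * (q - r) ^ a * q ^ b))
    (hB : 2 * 2 ^ K1 * (q' + r') ^ (a + b + c) ≤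
      9 ^ (b + c) * (r' ^ b * (q' - 8 * r') ^ a * q' ^ c)) :
    2 ^ (m - 3 * (a * k + 1 + c * k + 1) + 1) * G (a * k + 1) (b * k) (c * k) 8 1 +
      2 ^ (e + 1) * G (a * k + 1) (c * k) (b * k) 1 8 < 9 ^ (b * k + c * k + 1) := by
  set G1 := G (a * k + 1) (b * k) (c * k) 8 1 with hG1
  set G2 := G (a * k + 1) (c * k) (b * k) 1 8 with hG2
  set mu := 3 * (a * k + 1 + c * k + 1) with hmu
  -- first term
  have b1 := G_bound (a * k + 1) (b * k) (c * k) 8 1 r q hr (by omega)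
  rw [← hG1] at b1
  have first : 2 ^ (m + 2) * G1 < 9 ^ ((b + c) * k) * 8 ^ ((a + c) * k) * 576 := by
    have c1 : G1 * ((r ^ c * (q - r) ^ a * q ^ b) ^ k * (q - r) ^ 2) ≤
        ((q + 8 * r) ^ (a + b + c)) ^ k * (q + 8 * r) ^ 2 := by
      refine le_trans (le_of_eq ?_) (le_trans b1 (le_of_eq ?_))
      · rw [one_mul, mul_pow, mul_pow, ← pow_mul, ← pow_mul, ← pow_mul,
          show a * k + 1 + 1 = a * k + 2 by ring, pow_add (q - r) (a * k) 2]
        ring
      · rw [← pow_mul, ← pow_add]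
        congr 1
        ring
    have c2 : (2 * 2 ^ K) ^ k * ((q + 8 * r) ^ (a + b + c)) ^ k ≤
        (9 ^ ((b + c) * k) * 8 ^ ((a + c) * k)) * (r ^ c * (q - r) ^ a * q ^ b) ^ k := by
      have := n3_pow (k := k) hA
      rw [mul_pow, mul_pow (9 ^ (b + c) * 8 ^ (a + c)), mul_pow (9 ^ (b + c)), ← pow_mul 9,
        ← pow_mul 8] at this
      exact this
    have c3 : 2 ^ (m + 2) * (q + 8 * r) ^ 2 < 576 * (q - r) ^ 2 * (2 * 2 ^ K) ^ k := by
      have d1 : 2 ^ (m + 2) ≤ 2 * (2 * 2 ^ K) ^ k := by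
        have : 2 * (2 * 2 ^ K) ^ k = 2 ^ (1 + k + K * k) := by
          rw [mul_pow, ← pow_mul, pow_add, pow_add, pow_one]
          ring
        rw [this]
        apply Nat.pow_le_pow_right (by norm_num)
        have : K * (k + 1) = K * k + K := by ring
        omega
      have d2 : 2 * (q + 8 * r) ^ 2 < 576 * (q - r) ^ 2 := by
        obtain ⟨u, rfl⟩ : ∃ u, q = 2 * r + u := ⟨q - 2 * r, by omega⟩
        have : 2 * r + u - r = r + u := by omega
        rw [this]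
        nlinarith [Nat.zero_le (r * u), Nat.zero_le (u * u), Nat.mul_pos hr hr]
      have hpos : 0 < (2 * 2 ^ K) ^ k := by positivity
      calc 2 ^ (m + 2) * (q + 8 * r) ^ 2 ≤ 2 * (2 * 2 ^ K) ^ k * (q + 8 * r) ^ 2 :=
            Nat.mul_le_mul_right _ d1
        _ = 2 * (q + 8 * r) ^ 2 * (2 * 2 ^ K) ^ k := by ring
        _ < 576 * (q - r) ^ 2 * (2 * 2 ^ K) ^ k := Nat.mul_lt_mul_of_pos_right d2 hpos
    exact n3_key c1 c2 c3 (by positivity) (by positivity)
  -- second term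
  have b2 := G_bound (a * k + 1) (c * k) (b * k) 1 8 r' q' hr' (by omega)
  rw [← hG2] at b2
  have second : 2 ^ (e + 2) * G2 < 9 ^ ((b + c) * k) * 9 := by
    have c1 : G2 * ((r' ^ b * (q' - 8 * r') ^ a * q' ^ c) ^ k * (q' - 8 * r') ^ 2) ≤
        ((q' + r') ^ (a + b + c)) ^ k * (q' + r') ^ 2 := by
      refine le_trans (le_of_eq ?_) (le_trans b2 (le_of_eq ?_))
      · rw [mul_pow, mul_pow, ← pow_mul, ← pow_mul, ← pow_mul,
          show a * k + 1 + 1 = a * k + 2 by ring, pow_add (q' - 8 * r') (a * k) 2]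
        ring
      · rw [← pow_mul, ← pow_add, one_mul]
        congr 1
        ring
    have c2 : (2 * 2 ^ K1) ^ k * ((q' + r') ^ (a + b + c)) ^ k ≤
        (9 ^ ((b + c) * k)) * (r' ^ b * (q' - 8 * r') ^ a * q' ^ c) ^ k := by
      have := n3_pow (k := k) hB
      rw [mul_pow, mul_pow (9 ^ (b + c)), ← pow_mul 9] at this
      exact this
    have c3 : 2 ^ (e + 2) * (q' + r') ^ 2 < 9 * (q' - 8 * r') ^ 2 * (2 * 2 ^ K1) ^ k := by
      have d1 : 2 ^ (e + 2) ≤ (2 * 2 ^ K1) ^ k := by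
        have : (2 * 2 ^ K1) ^ k = 2 ^ (k + K1 * k) := by
          rw [mul_pow, ← pow_mul, pow_add]
        rw [this]
        apply Nat.pow_le_pow_right (by norm_num)
        have : K1 * (k + 1) = K1 * k + K1 := by ring
        omega
      have d2 : (q' + r') ^ 2 < 9 * (q' - 8 * r') ^ 2 := by
        obtain ⟨u, rfl⟩ : ∃ u, q' = 13 * r' + u := ⟨q' - 13 * r', by omega⟩
        have : 13 * r' + u - 8 * r' = 5 * r' + u := by omega
        rw [this]
        nlinarith [Nat.zero_le (r' * u), Nat.zero_le (u * u), Nat.mul_pos hr' hr']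
      have hpos : 0 < (2 * 2 ^ K1) ^ k := by positivity
      calc 2 ^ (e + 2) * (q' + r') ^ 2 ≤ (2 * 2 ^ K1) ^ k * (q' + r') ^ 2 :=
            Nat.mul_le_mul_right _ d1
        _ = (q' + r') ^ 2 * (2 * 2 ^ K1) ^ k := by ring
        _ < 9 * (q' - 8 * r') ^ 2 * (2 * 2 ^ K1) ^ k := Nat.mul_lt_mul_of_pos_right d2 hpos
    exact n3_key c1 c2 c3 (by positivity) (by positivity)
  -- together
  have h9 : 9 ^ (b * k + c * k + 1) = 9 ^ ((b + c) * k) * 9 := by
    rw [pow_succ]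
    congr 2
    ring
  have hfirst2 : 2 * (2 ^ (m - mu + 1) * G1) < 9 ^ ((b + c) * k) * 9 := by
    have h8 : 2 ^ mu = 8 ^ ((a + c) * k) * 64 := by
      rw [hmu, pow_mul, show a * k + 1 + c * k + 1 = (a + c) * k + 2 by ring, pow_add]
      norm_num
    have hpos : 0 < 2 ^ mu := by positivity
    have e1 : 2 * (2 ^ (m - mu + 1) * G1) * 2 ^ mu = 2 ^ (m + 2) * G1 := by
      have : m + 2 = (m - mu + 1) + 1 + mu := by omega
      rw [this, pow_add _ _ mu, pow_succ]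
      ring
    have e2 : 9 ^ ((b + c) * k) * 9 * 2 ^ mu = 9 ^ ((b + c) * k) * 8 ^ ((a + c) * k) * 576 := by
      rw [h8]
      ring
    have e3 : 2 * (2 ^ (m - mu + 1) * G1) * 2 ^ mu < 9 ^ ((b + c) * k) * 9 * 2 ^ mu := by
      rw [e1, e2]
      exact first
    exact Nat.lt_of_mul_lt_mul_right e3
  have hsecond2 : 2 * (2 ^ (e + 1) * G2) < 9 ^ ((b + c) * k) * 9 := by
    have : 2 * (2 ^ (e + 1) * G2) = 2 ^ (e + 2) * G2 := by
      rw [pow_succ 2 (e + 1)]
      ring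
    rw [this]
    exact second
  rw [h9]
  omega

end Pool.Agent.TFP
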