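import Mathlib
import Pool.Agent.Lib_helper99.TFP.Defs
import Pool.Agent.Lib_helper99.TFP.E3
import Pool.Agent.Lib_helper99.TFP.N3

set_option autoImplicit false

namespace Pool.Agent.TFP

open Finset

theorem v3_dvd (b c K L s t k m n v : ℕ) (hL : 9 ^ (b + c) ≤ 2 ^ L) (hsL : s * L ≤ t * K)
    (hst : 4 * s ≤ 16 * t) (hk : K * k + 16 ≤ m)
    (hcon : 2 ^ (t * m) < (3 ^ v) ^ s)
    (hv : 3 ^ v ∣ 2 ^ m + 2 ^ n + 1) :
    9 ^ (b * k + c * k + 1) ∣ 2 ^ m + 2 ^ n + 1 := by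
  have h1 : (9 : ℕ) ^ ((b * k + c * k + 1) * s) ≤ 2 ^ (t * m) := by
    calc (9 : ℕ) ^ ((b * k + c * k + 1) * s) = (9 ^ (b + c)) ^ (k * s) * 9 ^ s := by
          rw [← pow_mul, ← pow_add]; congr 1; ring
      _ ≤ (2 ^ L) ^ (k * s) * (2 ^ 4) ^ s := by
          apply Nat.mul_le_mul
          · exact Nat.pow_le_pow_left hL _
          · exact Nat.pow_le_pow_left (by norm_num) _
      _ = 2 ^ ((s * L) * k + 4 * s) := by
          rw [← pow_mul, ← pow_mul, ← pow_add]; congr 1; ring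
      _ ≤ 2 ^ (t * m) := by
          apply Nat.pow_le_pow_right (by norm_num)
          calc (s * L) * k + 4 * s ≤ (t * K) * k + 16 * t :=
                Nat.add_le_add (Nat.mul_le_mul_right _ hsL) hst
            _ = t * (K * k + 16) := by ring
            _ ≤ t * m := Nat.mul_le_mul_left _ hk
  have h2 : (3 : ℕ) ^ (2 * (b * k + c * k + 1) * s) < 3 ^ (v * s) := by
    have e1 : (3 : ℕ) ^ (2 * (b * k + c * k + 1) * s) = 9 ^ ((b * k + c * k + 1) * s) := by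
      rw [show (9 : ℕ) = 3 ^ 2 by norm_num, ← pow_mul]; congr 1; ring
    rw [e1, pow_mul 3 v s]
    exact lt_of_le_of_lt h1 hcon
  have h3 : 2 * (b * k + c * k + 1) * s < v * s := (Nat.pow_lt_pow_iff_right (by norm_num)).1 h2
  have h4 : 2 * (b * k + c * k + 1) < v := lt_of_mul_lt_mul_right h3 (Nat.zero_le _)
  have h5 : (9 : ℕ) ^ (b * k + c * k + 1) ∣ 3 ^ v := by
    rw [show (9 : ℕ) = 3 ^ 2 by norm_num, ← pow_mul]
    exact pow_dvd_pow 3 h4.le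
  exact h5.trans hv

theorem v3_k (K m : ℕ) (hK : 2 ≤ K) (hm : K * (K + 16) + 16 ≤ m) :
    ∃ k, K + 16 ≤ k ∧ K * k + 16 ≤ m ∧ m < K * (k + 1) + 16 := by
  refine ⟨(m - 16) / K, ?_, ?_, ?_⟩
  · rw [Nat.le_div_iff_mul_le (by omega)]
    have : (K + 16) * K = K * (K + 16) := by ring
    omega
  · have := Nat.mul_div_le (m - 16) K
    omega
  · have := Nat.lt_mul_div_succ (m - 16) (show 0 < K by omega)
    omega

theorem v3_low (a b c K K1 L r q r' q' s t u w : ℕ) (hr : 0 < r) (hq : 2 * r ≤ q) (hr' : 0 < r')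
    (hq' : 13 * r' ≤ q') (hK : K1 + 2 ≤ K) (ha : Even a) (hac : 3 * (a + c) ≤ K)
    (hL : 9 ^ (b + c) ≤ 2 ^ L) (hsL : s * L ≤ t * K) (hst : 4 * s ≤ 16 * t) (hs : 0 < s)
    (hw : 0 < w) (huw : u ≤ w) (hK1 : u * K ≤ w * K1)
    (hA : 2 * 2 ^ K * (q + 8 * r) ^ (a + b + c) ≤
      9 ^ (b + c) * 8 ^ (a + c) * (r ^ c * (q - r) ^ a * q ^ b))
    (hB : 2 * 2 ^ K1 * (q' + r') ^ (a + b + c) ≤
      9 ^ (b + c) * (r' ^ b * (q' - 8 * r') ^ a * q' ^ c))
    (m n v : ℕ) (hm : K * (K + 16) + 16 ≤ m) (hn : w * n ≤ u * m)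
    (hv : 3 ^ v ∣ 2 ^ m + 2 ^ n + 1) : (3 ^ v) ^ s ≤ 2 ^ (t * m) := by
  by_contra hcon
  push Not at hcon
  obtain ⟨k, hk1, hk2, hk3⟩ := v3_k K m (by omega) hm
  have hd := v3_dvd b c K L s t k m n v hL hsL hst hk2 hcon hv
  have hμ : 3 * (a * k + 1 + c * k + 1) ≤ m := by
    have : 3 * (a + c) * k ≤ K * k := Nat.mul_le_mul_right _ hac
    have e : 3 * (a * k + 1 + c * k + 1) = 3 * (a + c) * k + 6 := by ring
    omega
  have hodd : Odd (a * k + 1) := (ha.mul_right k).add_one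
  have h1 := e3_low (a * k + 1) (b * k) (c * k) m n hodd hμ hd
  have he : n ≤ K1 * (k + 1) + 16 := by
    have h : w * n ≤ w * (K1 * (k + 1) + 15) := by
      calc w * n ≤ u * m := hn
        _ ≤ u * (K * (k + 1) + 15) := Nat.mul_le_mul_left _ (by omega)
        _ = (u * K) * (k + 1) + u * 15 := by ring
        _ ≤ (w * K1) * (k + 1) + w * 15 :=
            Nat.add_le_add (Nat.mul_le_mul_right _ hK1) (Nat.mul_le_mul_right _ huw)
        _ = w * (K1 * (k + 1) + 15) := by ring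
    have := Nat.le_of_mul_le_mul_left h hw
    omega
  have h2 := n3 a b c K K1 r q r' q' k m n hr hq hr' hq' hK hk1 hk3 he hμ hA hB
  have h3 : 2 ^ (m - 3 * (a * k + 1 + c * k + 1)) * G (a * k + 1) (b * k) (c * k) 8 1 ≤
      2 ^ (m - 3 * (a * k + 1 + c * k + 1) + 1) * G (a * k + 1) (b * k) (c * k) 8 1 :=
    Nat.mul_le_mul_right _ (Nat.pow_le_pow_right (by norm_num) (by omega))
  have h4 : (2 ^ n + 1) * G (a * k + 1) (c * k) (b * k) 1 8 ≤
      2 ^ (n + 1) * G (a * k + 1) (c * k) (b * k) 1 8 := by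
    apply Nat.mul_le_mul_right
    have := Nat.one_le_two_pow (n := n)
    rw [pow_succ]; omega
  omega

theorem v3_high (a b c K L r q r' q' s t u w : ℕ) (hr : 0 < r) (hq : 2 * r ≤ q) (hr' : 0 < r')
    (hq' : 13 * r' ≤ q') (hK : 2 ≤ K) (ha : Even a) (hac : 3 * w * (a + c) ≤ u * K)
    (hL : 9 ^ (b + c) ≤ 2 ^ L) (hsL : s * L ≤ t * K) (hst : 4 * s ≤ 16 * t) (hs : 0 < s)
    (hw : 0 < w) (huw : 6 * w ≤ 16 * u)
    (hA : 2 * 2 ^ K * (q + 8 * r) ^ (a + b + c) ≤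
      9 ^ (b + c) * 8 ^ (a + c) * (r ^ c * (q - r) ^ a * q ^ b))
    (hB : 2 * (q' + r') ^ (a + b + c) ≤
      9 ^ (b + c) * (r' ^ b * (q' - 8 * r') ^ a * q' ^ c))
    (m n v : ℕ) (hm : K * (K + 16) + 16 ≤ m) (hnm : n ≤ m) (hn : u * m ≤ w * n)
    (hv : 3 ^ v ∣ 2 ^ m + 2 ^ n + 1) : (3 ^ v) ^ s ≤ 2 ^ (t * m) := by
  by_contra hcon
  push Not at hcon
  obtain ⟨k, hk1, hk2, hk3⟩ := v3_k K m (by omega) hm
  have hd := v3_dvd b c K L s t k m n v hL hsL hst hk2 hcon hv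
  have hμn : 3 * (a * k + 1 + c * k + 1) ≤ n := by
    have h : w * (3 * (a * k + 1 + c * k + 1)) ≤ w * n := by
      calc w * (3 * (a * k + 1 + c * k + 1)) = (3 * w * (a + c)) * k + 6 * w := by ring
        _ ≤ (u * K) * k + 16 * u := Nat.add_le_add (Nat.mul_le_mul_right _ hac) huw
        _ = u * (K * k + 16) := by ring
        _ ≤ u * m := Nat.mul_le_mul_left _ hk2
        _ ≤ w * n := hn
    exact Nat.le_of_mul_le_mul_left h hw
  have hμ : 3 * (a * k + 1 + c * k + 1) ≤ m := hμn.trans hnm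
  have hodd : Odd (a * k + 1) := (ha.mul_right k).add_one
  have h1 := e3_high (a * k + 1) (b * k) (c * k) m n hodd hnm hμn hd
  have h2 := n3 a b c K 0 r q r' q' k m 0 hr hq hr' hq' (by omega) hk1 hk3 (by omega) hμ hA
    (by simpa using hB)
  have h4 : G (a * k + 1) (c * k) (b * k) 1 8 ≤
      2 ^ (0 + 1) * G (a * k + 1) (c * k) (b * k) 1 8 := by
    simp only [zero_add, pow_one]; omega
  omega

end Pool.Agent.TFP
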