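import Mathlib
import Pool.Agent.Lib_helper99.TFP.V3

/-!
# The numbers for the prime 3
-/

set_option autoImplicit false
set_option exponentiation.threshold 5000

namespace Pool.Agent.TFP

theorem p3_34 (m n v : ℕ) (hm : 10 ^ 7 ≤ m) (hnm : n < m) (hn : 16 * n ≤ m ∨ 12 * m ≤ 13 * n)
    (hv : 3 ^ v ∣ 2 ^ m + 2 ^ n + 1) : (3 ^ v) ^ 4 ≤ 2 ^ (3 * m) := by
  rcases hn with hn | hn
  · exact v3_low 444 243 249 2080 130 1560 2 49 1 25 4 3 1 16 (by norm_num) (by norm_num)
      (by norm_num) (by norm_num) (by norm_num) (by decide) (by norm_num) (by norm_num)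
      (by norm_num) (by norm_num) (by norm_num) (by norm_num) (by norm_num) (by norm_num)
      (by norm_num) (by norm_num) m n v (by norm_num at hm ⊢; omega) (by omega) hv
  · exact v3_high 620 403 319 3052 2289 1 28 2 45 4 3 12 13 (by norm_num) (by norm_num)
      (by norm_num) (by norm_num) (by norm_num) (by decide) (by norm_num) (by norm_num)
      (by norm_num) (by norm_num) (by norm_num) (by norm_num) (by norm_num) (by norm_num)
      (by norm_num) m n v (by norm_num at hm ⊢; omega) hnm.le hn hv

theorem p3_999 (m n v : ℕ) (hm : 12 * 10 ^ 6 ≤ m) (hnm : n < m) (hn : 4 * n ≤ m ∨ 2 * m ≤ 3 * n)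
    (hv : 3 ^ v ∣ 2 ^ m + 2 ^ n + 1) : (3 ^ v) ^ 1000 ≤ 2 ^ (999 * m) := by
  rcases hn with hn | hn
  · exact v3_low 128 113 144 816 204 815 1 15 1 19 1000 999 1 4 (by norm_num) (by norm_num)
      (by norm_num) (by norm_num) (by norm_num) (by decide) (by norm_num) (by norm_num)
      (by norm_num) (by norm_num) (by norm_num) (by norm_num) (by norm_num) (by norm_num)
      (by norm_num) (by norm_num) m n v (by norm_num at hm ⊢; omega) (by omega) hv
  · exact v3_high 44 78 38 369 368 1 27 3 40 1000 999 2 3 (by norm_num) (by norm_num)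
      (by norm_num) (by norm_num) (by norm_num) (by decide) (by norm_num) (by norm_num)
      (by norm_num) (by norm_num) (by norm_num) (by norm_num) (by norm_num) (by norm_num)
      (by norm_num) m n v (by norm_num at hm ⊢; omega) hnm.le hn hv

end Pool.Agent.TFP
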