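import Mathlib
import Pool.Agent.Lib_helper99.TFP.Defs
import Pool.Agent.Lib_helper99.TFP.U

set_option autoImplicit false

namespace Pool.Agent.TFP

open Finset

theorem n5_key {g W S Z R t N p h : ℕ} (h1 : g * (W * S) ≤ Z * R) (h2 : t * Z ≤ N * W)
    (h3 : p * R < h * S * t) (hZ : 0 < Z) (ht : 0 < t) : p * g < N * h := by
  by_contra hcon
  rw [not_lt] at hcon
  have hNW : 0 < N * W := lt_of_lt_of_le (Nat.mul_pos ht hZ) h2
  have e1 : N * h * (W * S * t) ≤ p * g * (W * S * t) := Nat.mul_le_mul_right _ hcon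
  have e2 : p * g * (W * S * t) = p * t * (g * (W * S)) := by ring
  have e3 : p * t * (g * (W * S)) ≤ p * t * (Z * R) := Nat.mul_le_mul_left _ h1
  have e4 : p * t * (Z * R) = p * R * (t * Z) := by ring
  have e5 : p * R * (t * Z) ≤ p * R * (N * W) := Nat.mul_le_mul_left _ h2
  have e6 : p * R * (N * W) < h * S * t * (N * W) := Nat.mul_lt_mul_of_pos_right h3 hNW
  have e7 : h * S * t * (N * W) = N * h * (W * S * t) := by ring
  omega

theorem n5_pow {x y k : ℕ} (h : x ≤ y) : x ^ k ≤ y ^ k := Nat.pow_le_pow_left h k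

theorem n5 (a b c K K1 r q r' q' k m e : ℕ) (hr : 0 < r) (hq : 6 * r ≤ q) (hr' : 0 < r')
    (hq' : 127 * r' ≤ q') (hK : K1 + 2 ≤ K) (hk : K + 16 ≤ k) (hm : m < K * (k + 1) + 16)
    (he : e ≤ K1 * (k + 1) + 16)
    (hA : 2 * 2 ^ K * 3 ^ (a + b) * (q + 125 * r) ^ (a + b + c) ≤
      2 ^ (7 * (b + c)) * 125 ^ (a + c) * (r ^ c * (q - 3 * r) ^ a * q ^ b))
    (hB : 2 * 2 ^ K1 * (q' + 3 * r') ^ (a + b + c) ≤
      2 ^ (7 * (b + c)) * (r' ^ b * (q' - 125 * r') ^ a * q' ^ c)) :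
    2 ^ (m + 1) * (3 ^ (a * k + b * k + 1) * G (a * k) (b * k) (c * k) 125 3) +
      2 ^ (e + 1) * (125 ^ (a * k + c * k + 1) * G (a * k) (c * k) (b * k) 3 125) <
      2 ^ (7 * (b * k + c * k + 1)) * 125 ^ (a * k + c * k + 1) := by
  set G1 := G (a * k) (b * k) (c * k) 125 3 with hG1
  set G2 := G (a * k) (c * k) (b * k) 3 125 with hG2
  -- first term
  have b1 := G_bound (a * k) (b * k) (c * k) 125 3 r q hr (by omega)
  rw [← hG1] at b1
  have first : 2 ^ (m + 2) * 3 * (3 ^ ((a + b) * k) * G1) <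
      2 ^ (7 * (b + c) * k) * 125 ^ ((a + c) * k) * 16000 := by
    have c1 : 3 ^ ((a + b) * k) * G1 * ((r ^ c * (q - 3 * r) ^ a * q ^ b) ^ k * (q - 3 * r)) ≤
        (3 ^ ((a + b) * k) * ((q + 125 * r) ^ (a + b + c)) ^ k) * (q + 125 * r) := by
      have hb : G1 * ((r ^ c * (q - 3 * r) ^ a * q ^ b) ^ k * (q - 3 * r)) ≤
          ((q + 125 * r) ^ (a + b + c)) ^ k * (q + 125 * r) := by
        refine le_trans (le_of_eq ?_) (le_trans b1 (le_of_eq ?_))
        · rw [mul_pow, mul_pow, ← pow_mul, ← pow_mul, ← pow_mul, pow_succ (q - 3 * r) (a * k)]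
          ring
        · rw [← pow_mul, ← pow_succ]
          congr 1
          ring
      calc 3 ^ ((a + b) * k) * G1 * ((r ^ c * (q - 3 * r) ^ a * q ^ b) ^ k * (q - 3 * r))
          = 3 ^ ((a + b) * k) *
            (G1 * ((r ^ c * (q - 3 * r) ^ a * q ^ b) ^ k * (q - 3 * r))) := by ring
        _ ≤ 3 ^ ((a + b) * k) * (((q + 125 * r) ^ (a + b + c)) ^ k * (q + 125 * r)) :=
            Nat.mul_le_mul_left _ hb
        _ = (3 ^ ((a + b) * k) * ((q + 125 * r) ^ (a + b + c)) ^ k) * (q + 125 * r) := by ring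
    have c2 : (2 * 2 ^ K) ^ k * (3 ^ ((a + b) * k) * ((q + 125 * r) ^ (a + b + c)) ^ k) ≤
        (2 ^ (7 * (b + c) * k) * 125 ^ ((a + c) * k)) *
          (r ^ c * (q - 3 * r) ^ a * q ^ b) ^ k := by
      have := n5_pow (k := k) hA
      rw [mul_pow, mul_pow (2 * 2 ^ K), mul_pow (2 ^ (7 * (b + c)) * 125 ^ (a + c)),
        mul_pow (2 ^ (7 * (b + c))), ← pow_mul 3, ← pow_mul 125,
        ← pow_mul 2 (7 * (b + c)) k] at this
      refine le_trans (le_of_eq ?_) this
      ring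
    have c3 : 2 ^ (m + 2) * 3 * (q + 125 * r) < 16000 * (q - 3 * r) * (2 * 2 ^ K) ^ k := by
      have d1 : 2 ^ (m + 2) ≤ 2 * (2 * 2 ^ K) ^ k := by
        have : 2 * (2 * 2 ^ K) ^ k = 2 ^ (1 + k + K * k) := by
          rw [mul_pow, ← pow_mul, pow_add, pow_add, pow_one]
          ring
        rw [this]
        apply Nat.pow_le_pow_right (by norm_num)
        have : K * (k + 1) = K * k + K := by ring
        omega
      have d2 : 6 * (q + 125 * r) < 16000 * (q - 3 * r) := by omega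
      have hpos : 0 < (2 * 2 ^ K) ^ k := by positivity
      calc 2 ^ (m + 2) * 3 * (q + 125 * r) ≤ 2 * (2 * 2 ^ K) ^ k * 3 * (q + 125 * r) :=
            Nat.mul_le_mul_right _ (Nat.mul_le_mul_right _ d1)
        _ = 6 * (q + 125 * r) * (2 * 2 ^ K) ^ k := by ring
        _ < 16000 * (q - 3 * r) * (2 * 2 ^ K) ^ k := Nat.mul_lt_mul_of_pos_right d2 hpos
    exact n5_key c1 c2 c3 (by positivity) (by positivity)
  -- second term
  have b2 := G_bound (a * k) (c * k) (b * k) 3 125 r' q' hr' (by omega)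
  rw [← hG2] at b2
  have second : 2 ^ (e + 2) * G2 < 2 ^ (7 * (b + c) * k) * 128 := by
    have c1 : G2 * ((r' ^ b * (q' - 125 * r') ^ a * q' ^ c) ^ k * (q' - 125 * r')) ≤
        ((q' + 3 * r') ^ (a + b + c)) ^ k * (q' + 3 * r') := by
      refine le_trans (le_of_eq ?_) (le_trans b2 (le_of_eq ?_))
      · rw [mul_pow, mul_pow, ← pow_mul, ← pow_mul, ← pow_mul, pow_succ (q' - 125 * r') (a * k)]
        ring
      · rw [← pow_mul, ← pow_succ]
        congr 1
        ring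
    have c2 : (2 * 2 ^ K1) ^ k * ((q' + 3 * r') ^ (a + b + c)) ^ k ≤
        (2 ^ (7 * (b + c) * k)) * (r' ^ b * (q' - 125 * r') ^ a * q' ^ c) ^ k := by
      have := n5_pow (k := k) hB
      rw [mul_pow, mul_pow (2 ^ (7 * (b + c))), ← pow_mul 2 (7 * (b + c)) k] at this
      exact this
    have c3 : 2 ^ (e + 2) * (q' + 3 * r') < 128 * (q' - 125 * r') * (2 * 2 ^ K1) ^ k := by
      have d1 : 2 ^ (e + 2) ≤ (2 * 2 ^ K1) ^ k := by
        have : (2 * 2 ^ K1) ^ k = 2 ^ (k + K1 * k) := by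
          rw [mul_pow, ← pow_mul, pow_add]
        rw [this]
        apply Nat.pow_le_pow_right (by norm_num)
        have : K1 * (k + 1) = K1 * k + K1 := by ring
        omega
      have d2 : q' + 3 * r' < 128 * (q' - 125 * r') := by omega
      have hpos : 0 < (2 * 2 ^ K1) ^ k := by positivity
      calc 2 ^ (e + 2) * (q' + 3 * r') ≤ (2 * 2 ^ K1) ^ k * (q' + 3 * r') :=
            Nat.mul_le_mul_right _ d1
        _ = (q' + 3 * r') * (2 * 2 ^ K1) ^ k := by ring
        _ < 128 * (q' - 125 * r') * (2 * 2 ^ K1) ^ k := Nat.mul_lt_mul_of_pos_right d2 hpos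
    exact n5_key c1 c2 c3 (by positivity) (by positivity)
  -- together
  set Y := 125 ^ (a * k + c * k + 1) with hY
  have hYe : Y = 125 ^ ((a + c) * k) * 125 := by
    rw [hY, pow_succ]
    congr 2
    ring
  have hXe : 2 ^ (7 * (b * k + c * k + 1)) = 2 ^ (7 * (b + c) * k) * 128 := by
    have : 7 * (b * k + c * k + 1) = 7 * (b + c) * k + 7 := by ring
    rw [this, pow_add]
    norm_num
  have hfirst2 : 2 * (2 ^ (m + 1) * (3 ^ (a * k + b * k + 1) * G1)) <
      2 ^ (7 * (b + c) * k) * 128 * Y := by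
    have e1 : 2 * (2 ^ (m + 1) * (3 ^ (a * k + b * k + 1) * G1)) =
        2 ^ (m + 2) * 3 * (3 ^ ((a + b) * k) * G1) := by
      have h1 : 3 ^ (a * k + b * k + 1) = 3 ^ ((a + b) * k) * 3 := by
        rw [pow_succ]
        congr 2
        ring
      rw [h1, pow_succ 2 (m + 1)]
      ring
    have e2 : 2 ^ (7 * (b + c) * k) * 128 * Y =
        2 ^ (7 * (b + c) * k) * 125 ^ ((a + c) * k) * 16000 := by
      rw [hYe]
      ring
    rw [e1, e2]
    exact first
  have hsecond2 : 2 * (2 ^ (e + 1) * (Y * G2)) < 2 ^ (7 * (b + c) * k) * 128 * Y := by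
    have e1 : 2 * (2 ^ (e + 1) * (Y * G2)) = 2 ^ (e + 2) * G2 * Y := by
      rw [pow_succ 2 (e + 1)]
      ring
    have hpos : 0 < Y := by
      rw [hY]
      positivity
    rw [e1]
    exact Nat.mul_lt_mul_of_pos_right second hpos
  rw [hXe]
  omega

end Pool.Agent.TFP
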