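import Mathlib
import Pool.Agent.Lib_helper99.TFP.Defs
import Pool.Agent.Lib_helper99.TFP.E5
import Pool.Agent.Lib_helper99.TFP.N5

set_option autoImplicit false

namespace Pool.Agent.TFP

open Finset

/-- the choice of `k` -/
theorem v5_k (K m : ℕ) (hK : 2 ≤ K) (hm : K * (K + 16) + 16 ≤ m) :
    ∃ k, K + 16 ≤ k ∧ K * k + 16 ≤ m ∧ m < K * (k + 1) + 16 := by
  refine ⟨(m - 16) / K, ?_, ?_, ?_⟩
  · rw [Nat.le_div_iff_mul_le (by omega)]
    have : (K + 16) * K = K * (K + 16) := Nat.mul_comm _ _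
    omega
  · have := Nat.mul_div_le (m - 16) K
    omega
  · have := Nat.lt_mul_div_succ (m - 16) (show 0 < K by omega)
    omega

/-- the power of `125` divides -/
theorem v5_dvd (a c K L s t k m n v : ℕ) (hL : 125 ^ (a + c) ≤ 2 ^ L) (hsL : s * L ≤ t * K)
    (hst : 7 * s ≤ 16 * t) (hkm : K * k + 16 ≤ m)
    (hv : 5 ^ v ∣ 2 ^ m + 2 ^ n + 1) (hcon : 2 ^ (t * m) < (5 ^ v) ^ s) :
    125 ^ (a * k + c * k + 1) ∣ 2 ^ m + 2 ^ n + 1 := by
  have h1 : (125 ^ (a * k + c * k + 1)) ^ s ≤ 2 ^ (t * m) := by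
    have h2 : 125 ^ (a * k + c * k + 1) ≤ 2 ^ (L * k + 7) := by
      calc 125 ^ (a * k + c * k + 1) = (125 ^ (a + c)) ^ k * 125 := by
            rw [← pow_mul, ← pow_succ]
            congr 1
            ring
        _ ≤ (2 ^ L) ^ k * 2 ^ 7 := Nat.mul_le_mul (Nat.pow_le_pow_left hL k) (by norm_num)
        _ = 2 ^ (L * k + 7) := by rw [← pow_mul, ← pow_add]
    calc (125 ^ (a * k + c * k + 1)) ^ s ≤ (2 ^ (L * k + 7)) ^ s := Nat.pow_le_pow_left h2 s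
      _ = 2 ^ ((L * k + 7) * s) := by rw [← pow_mul]
      _ ≤ 2 ^ (t * m) := by
          apply Nat.pow_le_pow_right (by norm_num)
          calc (L * k + 7) * s = (s * L) * k + 7 * s := by ring
            _ ≤ (t * K) * k + 16 * t := Nat.add_le_add (Nat.mul_le_mul_right k hsL) hst
            _ = t * (K * k + 16) := by ring
            _ ≤ t * m := Nat.mul_le_mul_left t hkm
  have h3 : (125 ^ (a * k + c * k + 1)) ^ s < (5 ^ v) ^ s := lt_of_le_of_lt h1 hcon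
  have h4 : 125 ^ (a * k + c * k + 1) < 5 ^ v := lt_of_pow_lt_pow_left' s h3
  have h5 : 125 ^ (a * k + c * k + 1) = 5 ^ (3 * (a * k + c * k + 1)) := by
    rw [pow_mul]
    norm_num
  rw [h5] at h4
  have h6 : 3 * (a * k + c * k + 1) < v := (Nat.pow_lt_pow_iff_right (by norm_num)).mp h4
  rw [h5]
  exact dvd_trans (pow_dvd_pow 5 h6.le) hv

theorem v5_low (a b c K K1 L r q r' q' s t u w : ℕ) (hr : 0 < r) (hq : 6 * r ≤ q) (hr' : 0 < r')
    (hq' : 127 * r' ≤ q') (hK : K1 + 2 ≤ K) (ha : Even a) (hbc : 7 * (b + c) ≤ K)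
    (hL : 125 ^ (a + c) ≤ 2 ^ L) (hsL : s * L ≤ t * K) (hst : 7 * s ≤ 16 * t) (hs : 0 < s)
    (hw : 0 < w) (huw : u ≤ w) (hK1 : u * K ≤ w * K1)
    (hA : 2 * 2 ^ K * 3 ^ (a + b) * (q + 125 * r) ^ (a + b + c) ≤
      2 ^ (7 * (b + c)) * 125 ^ (a + c) * (r ^ c * (q - 3 * r) ^ a * q ^ b))
    (hB : 2 * 2 ^ K1 * (q' + 3 * r') ^ (a + b + c) ≤
      2 ^ (7 * (b + c)) * (r' ^ b * (q' - 125 * r') ^ a * q' ^ c))
    (m n v : ℕ) (hm : K * (K + 16) + 16 ≤ m) (hnm : n < m) (hn : w * n ≤ u * m)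
    (hv : 5 ^ v ∣ 2 ^ m + 2 ^ n + 1) : (5 ^ v) ^ s ≤ 2 ^ (t * m) := by
  by_contra hcon
  rw [not_le] at hcon
  obtain ⟨k, hk1, hk2, hk3⟩ := v5_k K m (by omega) hm
  have hd := v5_dvd a c K L s t k m n v hL hsL hst hk2 hv hcon
  have h7 : 7 * (b * k + c * k + 1) ≤ m := by
    have h1 : 7 * (b + c) * k ≤ K * k := Nat.mul_le_mul_right k hbc
    have h2 : 7 * (b * k + c * k + 1) = 7 * (b + c) * k + 7 := by ring
    omega
  have he := e5_low (a * k) (b * k) (c * k) m n (ha.mul_right k) h7 hd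
  have hen : n ≤ K1 * (k + 1) + 16 := by
    have h1 : w * n ≤ w * (K1 * (k + 1) + 15) := by
      calc w * n ≤ u * m := hn
        _ ≤ u * (K * (k + 1) + 15) := Nat.mul_le_mul_left u (by omega)
        _ = (u * K) * (k + 1) + u * 15 := by ring
        _ ≤ (w * K1) * (k + 1) + w * 15 :=
            Nat.add_le_add (Nat.mul_le_mul_right _ hK1) (Nat.mul_le_mul_right _ huw)
        _ = w * (K1 * (k + 1) + 15) := by ring
    have h2 := Nat.le_of_mul_le_mul_left h1 hw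
    omega
  have hn5 := n5 a b c K K1 r q r' q' k m n hr hq hr' hq' hK hk1 hk3 hen hA hB
  have hn1 : 2 ^ n + 1 ≤ 2 ^ (n + 1) := by
    have : 1 ≤ 2 ^ n := Nat.one_le_two_pow
    rw [pow_succ]
    omega
  have hm1 : 2 ^ m + 2 ^ n + 1 ≤ 2 ^ (m + 1) := by
    have h1 : 2 ^ (n + 1) ≤ 2 ^ m := Nat.pow_le_pow_right (by norm_num) hnm
    rw [pow_succ 2 m]
    omega
  have h8 := Nat.add_le_add
    (Nat.mul_le_mul_right (3 ^ (a * k + b * k + 1) * G (a * k) (b * k) (c * k) 125 3) hm1)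
    (Nat.mul_le_mul_right (125 ^ (a * k + c * k + 1) * G (a * k) (c * k) (b * k) 3 125) hn1)
  exact absurd (lt_of_le_of_lt (le_trans he h8) hn5) (lt_irrefl _)

theorem v5_high (a b c K L r q r' q' s t u w : ℕ) (hr : 0 < r) (hq : 6 * r ≤ q) (hr' : 0 < r')
    (hq' : 127 * r' ≤ q') (hK : 2 ≤ K) (ha : Even a) (hbc : 7 * w * (b + c) ≤ u * K)
    (hL : 125 ^ (a + c) ≤ 2 ^ L) (hsL : s * L ≤ t * K) (hst : 7 * s ≤ 16 * t) (hs : 0 < s)
    (hw : 0 < w) (huw : 7 * w ≤ 16 * u)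
    (hA : 2 * 2 ^ K * 3 ^ (a + b) * (q + 125 * r) ^ (a + b + c) ≤
      2 ^ (7 * (b + c)) * 125 ^ (a + c) * (r ^ c * (q - 3 * r) ^ a * q ^ b))
    (hB : 2 * (q' + 3 * r') ^ (a + b + c) ≤
      2 ^ (7 * (b + c)) * (r' ^ b * (q' - 125 * r') ^ a * q' ^ c))
    (m n v : ℕ) (hm : K * (K + 16) + 16 ≤ m) (hnm : n < m) (hn : u * m ≤ w * n)
    (hv : 5 ^ v ∣ 2 ^ m + 2 ^ n + 1) : (5 ^ v) ^ s ≤ 2 ^ (t * m) := by
  by_contra hcon
  rw [not_le] at hcon
  obtain ⟨k, hk1, hk2, hk3⟩ := v5_k K m hK hm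
  have hd := v5_dvd a c K L s t k m n v hL hsL hst hk2 hv hcon
  have h7 : 7 * (b * k + c * k + 1) ≤ n := by
    have h1 : w * (7 * (b * k + c * k + 1)) ≤ w * n := by
      calc w * (7 * (b * k + c * k + 1)) = (7 * w * (b + c)) * k + 7 * w := by ring
        _ ≤ (u * K) * k + 16 * u := Nat.add_le_add (Nat.mul_le_mul_right _ hbc) huw
        _ = u * (K * k + 16) := by ring
        _ ≤ u * m := Nat.mul_le_mul_left u hk2
        _ ≤ w * n := hn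
    exact Nat.le_of_mul_le_mul_left h1 hw
  have he := e5_high (a * k) (b * k) (c * k) m n (ha.mul_right k) hnm.le h7 hd
  have hB' : 2 * 2 ^ 0 * (q' + 3 * r') ^ (a + b + c) ≤
      2 ^ (7 * (b + c)) * (r' ^ b * (q' - 125 * r') ^ a * q' ^ c) := by
    rw [pow_zero, mul_one]
    exact hB
  have hn5 := n5 a b c K 0 r q r' q' k m 0 hr hq hr' hq' (by omega) hk1 hk3 (Nat.zero_le _) hA hB'
  have hm1 : 2 ^ m + 2 ^ n + 1 ≤ 2 ^ (m + 1) := by
    have h1 : 2 ^ (n + 1) ≤ 2 ^ m := Nat.pow_le_pow_right (by norm_num) hnm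
    have h2 : 1 ≤ 2 ^ n := Nat.one_le_two_pow
    rw [pow_succ] at h1
    rw [pow_succ 2 m]
    omega
  have h8 := Nat.add_le_add
    (Nat.mul_le_mul_right (3 ^ (a * k + b * k + 1) * G (a * k) (b * k) (c * k) 125 3) hm1)
    (Nat.mul_le_mul_right (125 ^ (a * k + c * k + 1) * G (a * k) (c * k) (b * k) 3 125)
      (show 1 ≤ 2 ^ (0 + 1) by norm_num))
  rw [one_mul] at h8
  exact absurd (lt_of_le_of_lt (le_trans he h8) hn5) (lt_irrefl _)

end Pool.Agent.TFP
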