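import Mathlib
import Pool.Agent.Lib_helper99.TFP.V5

/-!
# The numbers for the prime 5
-/

set_option autoImplicit false
set_option exponentiation.threshold 30000

namespace Pool.Agent.TFP

theorem p5_34 (m n v : ℕ) (hm : 10 ^ 7 ≤ m) (hnm : n < m) (hn : 5 * n ≤ m ∨ 5 * m ≤ 6 * n)
    (hv : 5 ^ v ∣ 2 ^ m + 2 ^ n + 1) : (5 ^ v) ^ 4 ≤ 2 ^ (3 * m) := by
  rcases hn with hn | hn
  · exact v5_low 84 135 72 1450 290 1087 1 385 1 205 4 3 1 5 (by norm_num) (by norm_num)
      (by norm_num) (by norm_num) (by norm_num) (by decide) (by norm_num) (by norm_num)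
      (by norm_num) (by norm_num) (by norm_num) (by norm_num) (by norm_num) (by norm_num)
      (by norm_num) (by norm_num) m n v (by norm_num at hm ⊢; omega) hnm (by omega) hv
  · exact v5_high 22 25 7 271 203 1 800 1 238 4 3 5 6 (by norm_num) (by norm_num)
      (by norm_num) (by norm_num) (by norm_num) (by decide) (by norm_num) (by norm_num)
      (by norm_num) (by norm_num) (by norm_num) (by norm_num) (by norm_num) (by norm_num)
      (by norm_num) m n v (by norm_num at hm ⊢; omega) hnm hn hv

theorem p5_999 (m n v : ℕ) (hm : 12 * 10 ^ 6 ≤ m) (hnm : n < m)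
    (hv : 5 ^ v ∣ 2 ^ m + 2 ^ n + 1) : (5 ^ v) ^ 1000 ≤ 2 ^ (999 * m) := by
  rcases le_total (13 * n) (7 * m) with hn | hn
  · exact v5_low 172 170 307 3341 1799 3337 2 285 1 257 1000 999 7 13 (by norm_num) (by norm_num)
      (by norm_num) (by norm_num) (by norm_num) (by decide) (by norm_num) (by norm_num)
      (by norm_num) (by norm_num) (by norm_num) (by norm_num) (by norm_num) (by norm_num)
      (by norm_num) (by norm_num) m n v (by norm_num at hm ⊢; omega) hnm hn hv
  · exact v5_high 296 133 55 2448 2445 1 993 3 1232 1000 999 7 13 (by norm_num) (by norm_num)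
      (by norm_num) (by norm_num) (by norm_num) (by decide) (by norm_num) (by norm_num)
      (by norm_num) (by norm_num) (by norm_num) (by norm_num) (by norm_num) (by norm_num)
      (by norm_num) m n v (by norm_num at hm ⊢; omega) hnm hn hv

end Pool.Agent.TFP
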