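import Mathlib

/-!
# `15` does not divide `2 ^ m + 2 ^ n + 1`
-/

set_option autoImplicit false

namespace Pool.Agent.TFP

theorem pow_mod (m : ℕ) : 2 ^ m % 15 = 1 ∨ 2 ^ m % 15 = 2 ∨ 2 ^ m % 15 = 4 ∨ 2 ^ m % 15 = 8 := by
  induction m with
  | zero => simp
  | succ m ih =>
    have h : 2 ^ (m + 1) % 15 = (2 ^ m % 15) * 2 % 15 := by
      rw [pow_succ, Nat.mul_mod]
    rw [h]
    rcases ih with ih | ih | ih | ih <;> rw [ih] <;> simp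

theorem pure (m n : ℕ) : ¬ 3 ∣ 2 ^ m + 2 ^ n + 1 ∨ ¬ 5 ∣ 2 ^ m + 2 ^ n + 1 := by
  by_contra h
  push Not at h
  obtain ⟨h3, h5⟩ := h
  rcases pow_mod m with hm | hm | hm | hm <;> rcases pow_mod n with hn | hn | hn | hn <;> omega

/-- the `{3,5}`-part is a power of `3` or a power of `5` -/
theorem spart (m n : ℕ) :
    (3 ^ padicValNat 3 (2 ^ m + 2 ^ n + 1) * 5 ^ padicValNat 5 (2 ^ m + 2 ^ n + 1) =
      3 ^ padicValNat 3 (2 ^ m + 2 ^ n + 1)) ∨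
    (¬ 3 ∣ 2 ^ m + 2 ^ n + 1 ∧
      3 ^ padicValNat 3 (2 ^ m + 2 ^ n + 1) * 5 ^ padicValNat 5 (2 ^ m + 2 ^ n + 1) =
      5 ^ padicValNat 5 (2 ^ m + 2 ^ n + 1)) := by
  rcases pure m n with h | h
  · right
    refine ⟨h, ?_⟩
    rw [padicValNat.eq_zero_of_not_dvd h]
    simp
  · left
    rw [padicValNat.eq_zero_of_not_dvd h]
    simp

/-- from powers to real exponents -/
theorem to_real (S s t m : ℕ) (hs : 0 < s) (h : S ^ s ≤ 2 ^ (t * m)) :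
    (S : ℝ) ≤ (2 : ℝ) ^ ((t : ℝ) * (m : ℝ) / (s : ℝ)) := by
  have hsr : (0 : ℝ) < s := by exact_mod_cast hs
  have h1 : (S : ℝ) ^ s ≤ (2 : ℝ) ^ (t * m) := by exact_mod_cast h
  have h2 : ((2 : ℝ) ^ ((t : ℝ) * (m : ℝ) / (s : ℝ))) ^ s = (2 : ℝ) ^ (t * m) := by
    rw [← Real.rpow_natCast, ← Real.rpow_mul (by norm_num), div_mul_cancel₀ _ hsr.ne',
      ← Nat.cast_mul, Real.rpow_natCast]
  rw [← h2] at h1
  exact le_of_pow_le_pow_left₀ hs.ne' (by positivity) h1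

end Pool.Agent.TFP
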